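import Pool.Agent.Q276.HL.Stm
import Pool.Agent.W591.HZ.VA1

/-! Project HL (helper276), VA14: the determinants vanish, chart 1. -/

set_option autoImplicit false

namespace Pool.Agent.Q153.HL

open Polynomial Pool.Agent.W223.HZ Pool.Agent.Q276.HL

theorem param_comp4 {C₄ S L e : ℝ} {ι κ : Type} {τ : ι → ℤ} {y : ι → ℝ}
    (h : Param4 C₄ S L e τ y) (g : κ → ι) :
    Param4 C₄ S L e (fun i => τ (g i)) (fun i => y (g i)) := by
  intro m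
  obtain ⟨f, l0, l1, ω, z, ε, h1, h2, h3, h4, h5, h6, h7, h8, h9⟩ := h m
  exact ⟨f, l0, l1, fun i => ω (g i), fun i => z (g i), fun i => ε (g i), h1, h2, h3, h4,
    fun i => h5 _, fun i => h6 _, fun i => h7 _, fun i j => h8 _ j, fun i => h9 _⟩

theorem param_mono4 {C₄ C S L V : ℝ} (hC4 : 1 ≤ C₄) (hC : 1 ≤ C) (hS : 0 < S) (hL : 0 < L)
    {ι : Type} {τ : ι → ℤ} {y : ι → ℝ}
    (h : Param4 C₄ S L (C / V ^ 4) τ y) : Param4 (C₄ * C) S L (1 / V ^ 4) τ y := by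
  intro m
  obtain ⟨f, l0, l1, ω, z, ε, h1, h2, h3, h4, h5, h6, h7, h8, h9⟩ := h m
  have hle : C₄ ≤ C₄ * C := le_mul_of_one_le_right (by linarith) hC
  have hpow : C₄ ^ m ≤ (C₄ * C) ^ m := pow_le_pow_left₀ (by linarith) hle m
  refine ⟨f, l0, l1, ω, z, ε, h1, fun j k => (h2 j k).trans hpow, h3.trans hle, h4.trans hle,
    fun i => ?_, fun i => ?_, fun i => ?_, h8, h9⟩
  · have hpos : 0 < C₄ ^ m := pow_pos (by linarith) m
    have hw : 0 ≤ ω i := by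
      by_contra hcon
      have := mul_neg_of_pos_of_neg hpos (not_le.1 hcon)
      have := h5 i
      linarith
    exact (h5 i).trans (mul_le_mul_of_nonneg_right hpow hw)
  · refine (h6 i).trans (mul_le_mul_of_nonneg_right hle (by positivity))
  · refine (h7 i).trans (le_of_eq ?_)
    ring

/-- The real variable facts for one point. -/
theorem point4 {R T V : ℝ} {a b c d e p q : ℤ} (hR : 20 ≤ R) (hT : 1 / 2 ≤ T) (hV : 1 ≤ V)
    (hg : Good4 3000 R T V a b c d e p q) (hc : Ch1 3000 R T V b c d e p q) :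
    (p : ℝ) ≠ 0 ∧ |(a * T ^ 4 / R : ℝ)| ≤ 3000 ^ 4 ∧ |(b * T ^ 2 / R : ℝ)| ≤ 3000 ^ 4 ∧
    |(c / R : ℝ)| ≤ 3000 ^ 4 ∧ |(d / (R * T ^ 2) : ℝ)| ≤ 3000 ^ 4 ∧
    |(e / (R * T ^ 4) : ℝ)| ≤ 3000 ^ 4 ∧
    |(q * T ^ 2 / p : ℝ)| ≤ 3000 ^ 4 ∧
    |(a * T ^ 4 / R : ℝ) + 4 * (b * T ^ 2 / R) * (q * T ^ 2 / p) +
      6 * (c / R) * (q * T ^ 2 / p) ^ 2 + 4 * (d / (R * T ^ 2)) * (q * T ^ 2 / p) ^ 3 +
      (e / (R * T ^ 4)) * (q * T ^ 2 / p) ^ 4| ≤ 3000 ^ 4 / V ^ 4 ∧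
    1 ≤ 3000 ^ 4 * |(b * T ^ 2 / R : ℝ) + 3 * (c / R) * (q * T ^ 2 / p) +
      3 * (d / (R * T ^ 2)) * (q * T ^ 2 / p) ^ 2 +
      (e / (R * T ^ 4)) * (q * T ^ 2 / p) ^ 3| := by
  obtain ⟨h1, h2, h3, h4, h4', h5, h6, h7⟩ := hg
  obtain ⟨h8, h9⟩ := hc
  have hR0 : 0 < R := by linarith
  have hT0 : 0 < T := by linarith
  have hV0 : 0 < V := by linarith
  have hTV : 0 < T * V := mul_pos hT0 hV0
  have hpa : 0 < |(p : ℝ)| := by nlinarith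
  have hp : (p : ℝ) ≠ 0 := abs_pos.1 hpa
  refine ⟨hp, ?_, ?_, ?_, ?_, ?_, ?_, ?_, ?_⟩
  · rw [abs_div, abs_mul, abs_of_pos hR0, abs_of_pos (pow_pos hT0 4), div_le_iff₀ hR0]
    nlinarith
  · rw [abs_div, abs_mul, abs_of_pos hR0, abs_of_pos (pow_pos hT0 2), div_le_iff₀ hR0]
    nlinarith
  · rw [abs_div, abs_of_pos hR0, div_le_iff₀ hR0]
    nlinarith
  · have : 0 < R * T ^ 2 := mul_pos hR0 (pow_pos hT0 2)
    rw [abs_div, abs_of_pos this, div_le_iff₀ this]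
    nlinarith
  · have : 0 < R * T ^ 4 := mul_pos hR0 (pow_pos hT0 4)
    rw [abs_div, abs_of_pos this, div_le_iff₀ this]
    nlinarith
  · rw [abs_div, abs_mul, abs_of_pos (pow_pos hT0 2), div_le_iff₀ hpa]
    have e1 : |(q : ℝ)| * T ^ 2 ≤ 3000 * V * T := by nlinarith [abs_nonneg (q : ℝ)]
    have e2 : 3000 * V * T ≤ 3000 * (3000 * |(p : ℝ)|) := by nlinarith
    have e3 : 0 ≤ |(p : ℝ)| := abs_nonneg _
    linarith
  · have h7' : (a : ℝ) * p ^ 4 + 4 * b * p ^ 3 * q + 6 * c * p ^ 2 * q ^ 2 + 4 * d * p * q ^ 3 +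
        e * q ^ 4 = 1 := by
      unfold qv at h7
      exact_mod_cast h7
    have e0 : (a * T ^ 4 / R : ℝ) + 4 * (b * T ^ 2 / R) * (q * T ^ 2 / p) +
      6 * (c / R) * (q * T ^ 2 / p) ^ 2 + 4 * (d / (R * T ^ 2)) * (q * T ^ 2 / p) ^ 3 +
      (e / (R * T ^ 4)) * (q * T ^ 2 / p) ^ 4 =
      T ^ 4 / (R * p ^ 4) := by
      have hRn := hR0.ne'
      have hTn := hT0.ne'
      field_simp
      linear_combination h7'
    rw [e0, abs_div, abs_mul, abs_of_pos hR0, abs_pow, abs_pow, abs_of_pos hT0,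
      div_le_div_iff₀ (mul_pos hR0 (pow_pos hpa 4)) (pow_pos hV0 4)]
    have e1 : (T * V) ^ 4 ≤ (3000 * |(p : ℝ)|) ^ 4 :=
      pow_le_pow_left₀ hTV.le h8 4
    have e3 : 0 < |(p : ℝ)| ^ 4 := pow_pos hpa 4
    calc T ^ 4 * V ^ 4 = (T * V) ^ 4 := by ring
      _ ≤ (3000 * |(p : ℝ)|) ^ 4 := e1
      _ = 3000 ^ 4 * (1 * |(p : ℝ)| ^ 4) := by ring
      _ ≤ 3000 ^ 4 * (R * |(p : ℝ)| ^ 4) := by
        refine mul_le_mul_of_nonneg_left ?_ (by positivity)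
        exact mul_le_mul_of_nonneg_right (by linarith) e3.le
  · have e0 : (b * T ^ 2 / R : ℝ) + 3 * (c / R) * (q * T ^ 2 / p) +
      3 * (d / (R * T ^ 2)) * (q * T ^ 2 / p) ^ 2 +
      (e / (R * T ^ 4)) * (q * T ^ 2 / p) ^ 3 =
      T ^ 2 * ((b * p ^ 3 + 3 * c * p ^ 2 * q + 3 * d * p * q ^ 2 + e * q ^ 3 : ℤ) : ℝ) /
        (R * p ^ 3) := by
      have hRn := hR0.ne'
      have hTn := hT0.ne'
      push_cast
      field_simp
    have hpp : 0 < |(p : ℝ)| ^ 3 := pow_pos hpa 3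
    rw [e0, abs_div, abs_mul, abs_mul, abs_of_pos hR0, abs_of_pos (pow_pos hT0 2), abs_pow,
      ← mul_div_assoc, le_div_iff₀ (mul_pos hR0 hpp), one_mul]
    set W : ℝ := |((b * p ^ 3 + 3 * c * p ^ 2 * q + 3 * d * p * q ^ 2 + e * q ^ 3 : ℤ) : ℝ)|
      with hW
    have e1 : |(p : ℝ)| ^ 3 ≤ (3000 * (T * V)) ^ 3 := pow_le_pow_left₀ hpa.le h5 3
    calc R * |(p : ℝ)| ^ 3 ≤ R * (3000 * (T * V)) ^ 3 := mul_le_mul_of_nonneg_left e1 hR0.le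
      _ = 3000 ^ 3 * T ^ 2 * (R * (T * V ^ 3)) := by ring
      _ ≤ 3000 ^ 3 * T ^ 2 * (3000 * W) := mul_le_mul_of_nonneg_left h9 (by positivity)
      _ = 3000 ^ 4 * (T ^ 2 * W) := by ring

theorem va14 (hC : StmtC1R4) (hB : StmtDPG4) (hP : StmtPAR4) : StmtVA14 := by
  have hK1 : (1 : ℝ) ≤ 3000 ^ 4 := by norm_num
  obtain ⟨K, hK⟩ : ∃ K : ℝ, K = 3000 ^ 4 := ⟨_, rfl⟩
  rw [← hK] at hK1
  obtain ⟨c₀, C₄, hc₀, hC₄, hC⟩ := hC K hK1
  have hC4le : C₄ ≤ C₄ * K := le_mul_of_one_le_right (by linarith) hK1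
  have hCC : (1 : ℝ) ≤ C₄ * K := hC₄.trans hC4le
  obtain ⟨C₅, hC₅, hB⟩ := hB (C₄ * K) hCC
  obtain ⟨S₁, hS₁, hP⟩ := hP (C₅ * 3000 ^ 2) (by linarith)
  refine ⟨c₀, max S₁ ((C₄ * K) ^ 2), hc₀, le_max_of_le_left hS₁, ?_⟩
  intro R T V σ m a b c d e₀ p₀ q₀ P Q E ha hR hT hS hσ hV hm hgood hg0 hch0 hij hi0 hE
  have hS1 : S₁ ≤ R * T ^ 4 := (le_max_left _ _).trans hS
  have hS2 : (C₄ * K) ^ 2 ≤ R * T ^ 4 := (le_max_right _ _).trans hS
  have hR0 : 0 < R := by linarith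
  have hT0 : 0 < T := by linarith
  set S : ℝ := R * T ^ 4 with hSdef
  have hSone : 1 ≤ S := hS₁.trans hS1
  have hS0 : 0 < S := by linarith
  have hV1 : 1 ≤ V := by rw [hV]; exact Real.one_le_rpow hSone (by linarith)
  have hV0 : 0 < V := by linarith
  have hV2 : S ≤ V ^ 2 := by
    rw [hV, ← Real.rpow_natCast, ← Real.rpow_mul hS0.le]
    calc S = S ^ (1 : ℝ) := (Real.rpow_one S).symm
      _ ≤ S ^ (σ * ((2 : ℕ) : ℝ)) := by
        refine Real.rpow_le_rpow_of_exponent_le hSone ?_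
        push_cast
        linarith
  have hV3 : S ≤ V ^ 4 := by
    have : V ^ 2 ≤ V ^ 4 := pow_le_pow_right₀ hV1 (by norm_num)
    linarith
  set L : ℝ := S ^ ((1 : ℝ) / 11) with hLdef
  have hL0 : 0 < L := Real.rpow_pos_of_pos hS0 _
  have hCL : C₄ * K * L ≤ S := by
    have e1 : L ≤ S ^ ((1 : ℝ) / 2) := Real.rpow_le_rpow_of_exponent_le hSone (by norm_num)
    rw [← Real.sqrt_eq_rpow] at e1
    have e2 : C₄ * K ≤ √S := Real.le_sqrt_of_sq_le hS2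
    calc C₄ * K * L ≤ √S * √S :=
          mul_le_mul e2 e1 hL0.le (Real.sqrt_nonneg _)
      _ = S := Real.mul_self_sqrt hS0.le
  have hCS : C₄ * K ≤ S := by
    have : C₄ * K ≤ (C₄ * K) ^ 2 := by nlinarith
    linarith
  have hm1 : 1 ≤ m := by
    rw [hm, Nat.one_le_ceil_iff]
    linarith
  have pt0 := point4 hR hT hV1 hg0 hch0
  have pt := fun i => point4 hR hT hV1 (hgood i).1 (hgood i).2
  simp only [← hK] at pt0 pt
  -- the family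
  let τ : Option (Fin m ⊕ Fin m) → ℤ := fun i => Option.elim i 0 (fun i => E i - e₀)
  let Er : Option (Fin m ⊕ Fin m) → ℝ := fun i =>
    Option.elim i ((e₀ : ℝ) / (R * T ^ 4)) (fun i => (E i : ℝ) / (R * T ^ 4))
  let yr : Option (Fin m ⊕ Fin m) → ℝ := fun i =>
    Option.elim i ((q₀ : ℝ) * T ^ 2 / p₀) (fun i => (Q i : ℝ) * T ^ 2 / P i)
  have hpar : Param4 C₄ S L (K / V ^ 4) τ yr := by
    refine hC S L (K / V ^ 4) (a * T ^ 4 / R) (b * T ^ 2 / R) (c / R) (d / (R * T ^ 2)) _ τ Er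
      yr none hS0 hL0.le ?_ (by positivity) ?_ ?_ pt0.2.1 pt0.2.2.1 pt0.2.2.2.1 pt0.2.2.2.2.1
      ?_ ?_ ?_ ?_ ?_ ?_ ?_
    · exact (mul_le_mul_of_nonneg_right hC4le hL0.le).trans hCL
    · rw [← mul_div_assoc, div_le_one (pow_pos hV0 4)]
      linarith
    · have : (a : ℝ) ≠ 0 := by exact_mod_cast ha
      positivity
    · rintro (_ | i)
      · exact pt0.2.2.2.2.2.1
      · exact (pt i).2.2.2.2.2.1
    · rintro (_ | i)
      · exact pt0.2.2.2.2.2.2.1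
      · exact (pt i).2.2.2.2.2.2.1
    · rintro (_ | i)
      · exact pt0.2.2.2.2.2.2.2.1
      · exact (pt i).2.2.2.2.2.2.2.1
    · rintro (_ | i)
      · exact pt0.2.2.2.2.2.2.2.2
      · exact (pt i).2.2.2.2.2.2.2.2
    · rintro (_ | i) (_ | j)
      · change |(q₀ : ℝ) * T ^ 2 / p₀ - (q₀ : ℝ) * T ^ 2 / p₀| ≤ c₀
        rw [sub_self, abs_zero]
        exact hc₀.le
      · change |(q₀ : ℝ) * T ^ 2 / p₀ - (Q j : ℝ) * T ^ 2 / P j| ≤ c₀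
        rw [abs_sub_comm]
        exact hi0 j
      · exact hi0 i
      · exact hij i j
    · rintro (_ | i)
      · change ((0 : ℤ) : ℝ) = S * ((e₀ : ℝ) / (R * T ^ 4) - (e₀ : ℝ) / (R * T ^ 4))
        rw [sub_self, mul_zero, Int.cast_zero]
      · change ((E i - e₀ : ℤ) : ℝ) = S * ((E i : ℝ) / (R * T ^ 4) - (e₀ : ℝ) / (R * T ^ 4))
        rw [← hSdef, Int.cast_sub, ← sub_div, mul_div_cancel₀ _ hS0.ne']
    · rintro (_ | i)
      · change |((0 : ℤ) : ℝ)| ≤ L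
        rw [Int.cast_zero, abs_zero]
        exact hL0.le
      · change |((E i - e₀ : ℤ) : ℝ)| ≤ L
        rw [Int.cast_sub]
        exact hE i
  have hpar2 := param_mono4 hC₄ hK1 hS0 hL0
    (param_comp4 hpar (fun i : Fin m ⊕ Fin m => some i))
  obtain ⟨Y, hY1, hY2⟩ := hP S σ m hS1 hσ hm
  have hY0 : 0 ≤ Y := by
    have := hY2 0 (by simp)
    refine le_trans ?_ this
    positivity
  have hVm : 0 < V ^ (2 * m) := pow_pos hV0 _
  have hdet := hB m S L (1 / V ^ 4) hm1 hS0 hL0 hCL (by positivity) _ _ hpar2 (Y / V ^ (2 * m))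
    (fun u hu => by
      have h := hY2 u hu
      rw [← hV] at h
      rw [le_div_iff₀ hVm]
      refine le_trans (le_of_eq ?_) h
      have hz : (1 / V ^ 4) ^ ((m : ℤ) - u) * V ^ (2 * m) = V ^ (4 * u - 2 * (m : ℤ)) := by
        rw [one_div, inv_zpow', ← zpow_natCast V 4, ← zpow_mul, ← zpow_natCast V (2 * m),
          ← zpow_add₀ hV0.ne']
        congr 1
        push_cast
        ring
      rw [← hz]
      ring)
  have hdm := Pool.Agent.W591.HZ.det_mat m P Q (fun i => E i - e₀) T hT0.ne' (fun i => (pt i).1)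
  have hprod : |∏ i, (P i : ℝ)| ≤ (3000 * (T * V)) ^ (2 * m) := by
    rw [Finset.abs_prod]
    calc ∏ i, |(P i : ℝ)| ≤ ∏ _i : Fin m ⊕ Fin m, (3000 * (T * V)) :=
          Finset.prod_le_prod (fun i _ => abs_nonneg _) (fun i _ => (hgood i).1.hp)
      _ = (3000 * (T * V)) ^ (2 * m) := by
        rw [Finset.prod_const, Finset.card_univ, Fintype.card_sum, Fintype.card_fin, two_mul]
  set Δ : ℝ := Matrix.det (Matrix.of fun i : Fin m ⊕ Fin m =>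
        Sum.elim (fun j : Fin m => ((E i - e₀ : ℤ) : ℝ) ^ (j : ℕ))
          (fun j : Fin m => ((Q i : ℝ) * T ^ 2 / P i) * ((E i - e₀ : ℤ) : ℝ) ^ (j : ℕ))) with hΔ
  have hdet' : V ^ (2 * m) * |Δ| ≤ C₅ ^ (m ^ 2) * Y := by
    have h1 : |Δ| ≤ C₅ ^ (m ^ 2) * (Y / V ^ (2 * m)) := hdet
    calc V ^ (2 * m) * |Δ| ≤ V ^ (2 * m) * (C₅ ^ (m ^ 2) * (Y / V ^ (2 * m))) :=
          mul_le_mul_of_nonneg_left h1 hVm.le
      _ = C₅ ^ (m ^ 2) * Y := by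
        field_simp
  have hfin : |((Mat m P Q (fun i => E i - e₀)).det : ℝ)| < 1 := by
    rw [hdm, abs_mul, abs_mul, abs_of_nonneg (by positivity : (0 : ℝ) ≤ (T ^ 2)⁻¹ ^ m)]
    have e1 : (3000 * (T * V)) ^ (2 * m) * ((T ^ 2)⁻¹ ^ m * |Δ|) =
        (3000 ^ 2) ^ m * (V ^ (2 * m) * |Δ|) := by
      rw [pow_mul, inv_pow, show (3000 * (T * V)) ^ 2 = 3000 ^ 2 * T ^ 2 * V ^ 2 by ring, mul_pow,
        mul_pow, pow_mul V 2 m]
      have : (T ^ 2) ^ m ≠ 0 := by positivity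
      field_simp
    have e2 : ((3000 : ℝ) ^ 2) ^ m ≤ (3000 ^ 2) ^ (m ^ 2) :=
      pow_le_pow_right₀ (by norm_num) (by nlinarith)
    calc _ ≤ (3000 * (T * V)) ^ (2 * m) * ((T ^ 2)⁻¹ ^ m * |Δ|) :=
          mul_le_mul_of_nonneg_right hprod (by positivity)
      _ = (3000 ^ 2) ^ m * (V ^ (2 * m) * |Δ|) := e1
      _ ≤ (3000 ^ 2) ^ (m ^ 2) * (C₅ ^ (m ^ 2) * Y) :=
          mul_le_mul e2 hdet' (by positivity) (by positivity)
      _ = (C₅ * 3000 ^ 2) ^ (m ^ 2) * Y := by rw [mul_pow]; ring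
      _ < 1 := hY1
  have h0 : |(Mat m P Q (fun i => E i - e₀)).det| < 1 := by exact_mod_cast hfin
  exact Int.abs_lt_one_iff.1 h0

end Pool.Agent.Q153.HL
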